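import Pool.Agent.W602.RG.Defs2

set_option autoImplicit false

open FF MvPolynomial Pool.Agent.W603.LV Pool.Agent.W603.PV Pool.Agent.W603.CX
open scoped LinearAlgebra.Projectivization

namespace Pool.Agent.W856.RG.Orb

open Pool.Agent.W602.RG

section aux

variable {k : Type} [Field k] {L : Type} [Field L] [Algebra k L]

lemma exists_zero [CharZero k] [IsFF k L] {f : L} (hf : Transcendental k f) :
    ∃ w : Place k L, 0 < w.ord f := by
  obtain ⟨S, hS, -, h3⟩ := zeros (k := k) (K := L) hf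
  by_contra hcon
  push Not at hcon
  have hS0 : S = ∅ := by
    rw [Finset.eq_empty_iff_forall_notMem]
    intro w hw
    exact absurd ((hS w).1 hw) (not_lt.2 (hcon w))
  rw [hS0, Finset.sum_empty] at h3
  have := IsFF.finite (k := k) (K := L) hf
  have h4 := Module.finrank_pos (R := IntermediateField.adjoin k {f}) (M := L)
  omega

lemma ord_T (c : Place k L) {T : L} (h1 : T - 1 ≠ 0) (hT : 0 < c.ord (T - 1)) : c.ord T = 0 := by
  have h := (c.ord_add_eq (f := 1) (g := T - 1) one_ne_zero h1 (by rw [c.ord_one]; exact hT)).2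
  rw [add_sub_cancel, c.ord_one] at h
  exact h

lemma red_T_pow (c : Place k L) {T : L} (h1 : T - 1 ≠ 0) (hT : 0 < c.ord (T - 1)) (m : ℕ) :
    c.Reg (T ^ m) ∧ c.red (T ^ m) = 1 := by
  have hr : c.Reg T := Or.inr (by rw [ord_T c h1 hT])
  have hr1 : c.Reg (T - 1) := Or.inr hT.le
  have hred : c.red T = 1 := by
    have h2 : c.red (T - 1) = 0 := (c.red_eq_zero_iff hr1).2 (Or.inr hT)
    rw [c.red_sub hr c.reg_one, c.red_one, sub_eq_zero] at h2
    exact h2
  induction m with
  | zero => rw [pow_zero]; exact ⟨c.reg_one, c.red_one⟩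
  | succ m ih =>
    rw [pow_succ]
    exact ⟨c.reg_mul ih.1 hr, by rw [c.red_mul ih.1 hr, ih.2, hred, one_mul]⟩

lemma pow_sub_one (c : Place k L) {T : L} (h1 : T - 1 ≠ 0) (hT : 0 < c.ord (T - 1)) (m : ℕ) :
    T ^ m - 1 = 0 ∨ 0 < c.ord (T ^ m - 1) := by
  obtain ⟨h2, h3⟩ := red_T_pow c h1 hT m
  have hr : c.Reg (T ^ m - 1) := by
    rw [sub_eq_add_neg]
    exact c.reg_add h2 (c.reg_neg c.reg_one)
  rw [← c.red_eq_zero_iff hr, c.red_sub h2 c.reg_one, h3, c.red_one, sub_self]

lemma zpow_sub_one (c : Place k L) {T : L} (hT0 : T ≠ 0) (h1 : T - 1 ≠ 0)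
    (hT : 0 < c.ord (T - 1)) (a : ℤ) : T ^ a - 1 = 0 ∨ 0 < c.ord (T ^ a - 1) := by
  obtain ⟨m, rfl | rfl⟩ := a.eq_nat_or_neg
  · rw [zpow_natCast]
    exact pow_sub_one c h1 hT m
  · have e : T ^ (-(m : ℤ)) - 1 = -(T ^ (-(m : ℤ)) * (T ^ m - 1)) := by
      rw [zpow_neg, zpow_natCast]
      have := pow_ne_zero m hT0
      field_simp
      ring
    rcases pow_sub_one c h1 hT m with h | h
    · left
      rw [e, h, mul_zero, neg_zero]
    · right
      have hne : T ^ m - 1 ≠ 0 := by
        intro h0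
        rw [h0, c.ord_zero] at h
        exact lt_irrefl _ h
      rw [e, c.ord_neg, c.ord_mul (zpow_ne_zero _ hT0) hne, c.ord_zpow, ord_T c h1 hT]
      simpa using h

end aux

theorem main : S_ORB := by
  classical
  intro k _ _ _ n ι U F x b hx ⟨j, l, hj, hl, hbjl⟩
  have hinf : Infinite k := inferInstance
  have hxU : ∀ m ∈ U, x m ≠ 0 := by
    intro m hm
    have := (hx 1 one_ne_zero).2.1 m hm
    simpa using this
  obtain ⟨T, hTd⟩ : ∃ T : RatFunc k, T = RatFunc.X := ⟨_, rfl⟩
  have hTt : Transcendental k T := hTd ▸ RatFunc.transcendental_X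
  have hT0 : T ≠ 0 := by rw [hTd]; exact RatFunc.X_ne_zero
  have hT1t : Transcendental k (T - 1) := by
    intro h
    apply hTt
    have h2 := h.add (isAlgebraic_one (R := k) (A := RatFunc k))
    rwa [sub_add_cancel] at h2
  have hT1 : T - 1 ≠ 0 := fun h => hT1t (h ▸ isAlgebraic_zero)
  obtain ⟨c, hc⟩ := exists_zero (k := k) hT1t
  obtain ⟨P0, hP0⟩ := exists_zero (k := k) hTt
  have hcT : c.ord T = 0 := ord_T c hT1 hc
  set φ : k →+* RatFunc k := algebraMap k (RatFunc k) with hφ
  have hφi : Function.Injective φ := φ.injective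
  let g : ℕ → Fin (n + 1) → RatFunc k := fun N m => φ (x m) * T ^ ((N : ℤ) * b m)
  have hg0 : ∀ N m, x m ≠ 0 → g N m ≠ 0 := fun N m hm =>
    mul_ne_zero (by rw [Ne, map_eq_zero]; exact hm) (zpow_ne_zero _ hT0)
  have hgz : ∀ N m, x m = 0 → g N m = 0 := fun N m hm => by
    change φ (x m) * T ^ ((N : ℤ) * b m) = 0
    rw [hm, map_zero, zero_mul]
  have hval : ∀ (N : ℕ) (H : MvPolynomial (Fin (n + 1)) k), aeval (g N) H =
      ∑ α ∈ H.support, (T ^ (N : ℤ)) ^ (∑ j, (α j : ℤ) * b j) *
        φ (H.coeff α * ∏ j, x j ^ α j) := by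
    intro N H
    rw [aeval_eq_sub]
    refine Finset.sum_congr rfl fun α _ => ?_
    have h1 : ∏ m, (g N m) ^ α m = φ (∏ m, x m ^ α m) * (T ^ (N : ℤ)) ^ (∑ j, (α j : ℤ) * b j) := by
      rw [map_prod]
      have h2 : (T ^ (N : ℤ)) ^ (∑ j, (α j : ℤ) * b j) = ∏ j, (T ^ (N : ℤ)) ^ ((α j : ℤ) * b j) := by
        induction (Finset.univ : Finset (Fin (n + 1))) using Finset.induction_on with
        | empty => simp
        | insert a s ha ih =>
          rw [Finset.sum_insert ha, Finset.prod_insert ha, zpow_add₀ (zpow_ne_zero _ hT0), ih]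
      rw [h2, ← Finset.prod_mul_distrib]
      refine Finset.prod_congr rfl fun m _ => ?_
      change (φ (x m) * T ^ ((N : ℤ) * b m)) ^ α m = _
      rw [mul_pow, map_pow, ← zpow_natCast (T ^ ((N : ℤ) * b m)), ← zpow_mul, ← zpow_mul]
      congr 2
      ring
    rw [h1, map_mul]
    ring
  -- orders
  have hord : ∀ (P : Place k (RatFunc k)), P.ord T = 0 → ∀ N m, x m ≠ 0 → P.ord (g N m) = 0 := by
    intro P hPT N m hm
    change P.ord (φ (x m) * T ^ ((N : ℤ) * b m)) = 0
    rw [P.ord_mul (by rw [Ne, map_eq_zero]; exact hm) (zpow_ne_zero _ hT0), P.ord_const hm,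
      P.ord_zpow, hPT]
    ring
  have hpord : ∀ (P : Place k (RatFunc k)), P.ord T = 0 → ∀ N, pord P (g N) = 0 := by
    intro P hPT N
    obtain ⟨m', hm', h2⟩ := exists_pord P (f := g N) ⟨j, hg0 _ _ hj⟩
    have hym' : x m' ≠ 0 := fun h => hm' (hgz _ _ h)
    rw [← h2, hord P hPT N m' hym']
  have hgne : ∀ N, g N ≠ 0 := fun N h => hg0 N j hj (by rw [h]; rfl)
  refine ⟨(finite_support (k := k) T).toFinset, c, ?_, ?_⟩
  · simpa using hcT
  refine Set.infinite_of_injective_forall_mem (f := fun N => Projectivization.mk (RatFunc k) (g N)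
    (hgne N)) ?_ ?_
  · intro N M hNM
    rw [Projectivization.mk_eq_mk_iff] at hNM
    obtain ⟨a, ha⟩ := hNM
    have h1 : (a : RatFunc k) * g M j = g N j := congrFun ha j
    have h2 : (a : RatFunc k) * g M l = g N l := congrFun ha l
    have h3 : P0.ord (g N j * g M l) = P0.ord (g M j * g N l) := by
      rw [← h1, ← h2]
      congr 1
      ring
    have ho : ∀ N m, x m ≠ 0 → P0.ord (g N m) = N * b m * P0.ord T := by
      intro N m hm
      change P0.ord (φ (x m) * T ^ ((N : ℤ) * b m)) = _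
      rw [P0.ord_mul (by rw [Ne, map_eq_zero]; exact hm) (zpow_ne_zero _ hT0), P0.ord_const hm,
        P0.ord_zpow]
      ring
    rw [P0.ord_mul (hg0 _ _ hj) (hg0 _ _ hl), P0.ord_mul (hg0 _ _ hj) (hg0 _ _ hl),
      ho N j hj, ho M l hl, ho M j hj, ho N l hl] at h3
    have h4 : (((N : ℤ) - M) * (b j - b l)) * P0.ord T = 0 := by linear_combination h3
    have h5 : ((N : ℤ) - M) * (b j - b l) = 0 := by
      rcases mul_eq_zero.1 h4 with h | h
      · exact h
      · omega
    rcases mul_eq_zero.1 h5 with h | h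
    · omega
    · exact absurd (by omega) hbjl
  · intro N
    refine ⟨g N, hgne N, ⟨⟨j, hg0 _ _ hj⟩, ?_, ?_⟩, ?_, rfl⟩
    · -- the equations
      intro i
      rw [hval]
      rw [← Finset.sum_fiberwise_of_maps_to (s := (F i).support)
        (t := (F i).support.image (fun α => ∑ j, (α j : ℤ) * b j))
        (g := fun α => ∑ j, (α j : ℤ) * b j) (fun α hα => Finset.mem_image_of_mem _ hα)]
      apply Finset.sum_eq_zero
      intro v _
      have h4 : ∀ α ∈ (F i).support.filter (fun α => ∑ j, (α j : ℤ) * b j = v),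
          (T ^ (N : ℤ)) ^ (∑ j, (α j : ℤ) * b j) * φ ((F i).coeff α * ∏ j, x j ^ α j)
            = (T ^ (N : ℤ)) ^ v * φ ((F i).coeff α * ∏ j, x j ^ α j) := by
        intro α hα
        rw [(Finset.mem_filter.1 hα).2]
      rw [Finset.sum_congr rfl h4, ← Finset.mul_sum, ← map_sum,
        parts_zero (F i) x b (fun t ht => (hx t ht).2.2 i) v, map_zero, mul_zero]
    · -- the units
      intro m hm
      refine ⟨hg0 _ _ (hxU m hm), fun P hP => ?_⟩
      have hPT : P.ord T = 0 := by
        by_contra h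
        exact hP (by simpa using h)
      rw [hord P hPT N m (hxU m hm), hpord P hPT N]
    · -- the value
      intro i i'
      by_cases hi : x i = 0
      · left
        rw [hi, hgz _ _ hi, map_zero]; ring
      by_cases hi' : x i' = 0
      · left
        rw [hi', hgz _ _ hi', map_zero]; ring
      have e : algebraMap k (RatFunc k) (x i) * g N i' - algebraMap k (RatFunc k) (x i') * g N i =
          φ (x i') * (φ (x i) * T ^ ((N : ℤ) * b i)) * (T ^ ((N : ℤ) * b i' - (N : ℤ) * b i) - 1) := by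
        change φ (x i) * (φ (x i') * T ^ ((N : ℤ) * b i')) - φ (x i') * (φ (x i) *
          T ^ ((N : ℤ) * b i)) = _
        rw [zpow_sub₀ hT0]
        have := zpow_ne_zero ((N : ℤ) * b i) hT0
        field_simp
      rw [e]
      rcases zpow_sub_one c hT0 hT1 hc ((N : ℤ) * b i' - (N : ℤ) * b i) with h | h
      · left
        rw [h, mul_zero]
      · right
        have hne : T ^ ((N : ℤ) * b i' - (N : ℤ) * b i) - 1 ≠ 0 := by
          intro h0
          rw [h0, c.ord_zero] at h
          exact lt_irrefl _ h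
        have hφi' : φ (x i') ≠ 0 := by rw [Ne, map_eq_zero]; exact hi'
        rw [c.ord_mul (mul_ne_zero hφi' (hg0 N i hi)) hne, c.ord_mul hφi' (hg0 N i hi),
          c.ord_const hi', hpord c hcT N]
        have := hord c hcT N i hi
        change c.ord (φ (x i) * T ^ ((N : ℤ) * b i)) = 0 at this
        rw [this]
        simpa using h

end Pool.Agent.W856.RG.Orb
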